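import Pool.Agent.KS6_64.Cvx.Global

/-!
Sets without harmonic maps and without strictly convex functions in every closed manifold.

`StrictlyConvexOn h U f`: the function `f` is `C^2` on the open set `U` and its Hessian for the
metric `h`, written in any chart, is positive definite at every point of `U`.
`PropOne h V` is property (i) of `V` (a strictly convex function on an open neighbourhood of `V`),
`PropertyTwo h V` is property (ii) (every harmonic map from a closed Riemannian manifold to
`(N, h)` with values in `V` is constant).

(1) In every sigma-compact manifold `N` there is a set `V` such that every continuous map from a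
connected compact space to `V` is constant, so that `V` has property (ii) for all metrics, and
which has property (i) for a metric only if there is a strictly convex function on the complement
of a countable closed set.

(2) A closed manifold of dimension at least two has no strictly convex function on the complement
of a countable closed set, for any metric.

(3) Hence in every closed manifold of dimension at least two there is a set which has property
(ii) and does not have property (i), for all metrics at once.

(4) Such closed Riemannian manifolds exist in every dimension at least two (the proof takes the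
round spheres).

Proof of (2). Let `f` be such a function on the complement of `K`, and let `p` be a point where
the upper limit of `f` is its supremum. Compare, in a chart, the sets `f ≥ c` with the convex
functions `ψ(x) = ⟨ξ, x⟩ + L|x|²`. A local maximum point of `ψ` on such a set is not outside of
`K`: take a direction `v` in the kernel of `df` and the curve `a + tv - t²Γ(v,v)/2`. By Baire's
theorem one point `q` of `K` is the maximum point for an open set of values of `ξ`: a vertex. Near
a vertex there are other vertices, so that the closure of the set of vertices is a perfect subset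
of `K`.
-/

set_option autoImplicit false

open scoped Manifold ContDiff Topology
open Pool.Agent.H234R3 Pool.Agent.KS6_64.Cvx

namespace Pool.Agent.Results.MP_267b52_gt.EveryClosedManifold

section Defs

variable {E : Type} [NormedAddCommGroup E] [InnerProductSpace ℝ E]
  {N : Type} [TopologicalSpace N] [ChartedSpace E N] [IsManifold 𝓘(ℝ, E) ∞ N]

/-- Every continuous map from a connected compact space to the set `V` is constant. -/
def NoCurves {N : Type} [TopologicalSpace N] (V : Set N) : Prop :=
  ∀ (X : Type) [TopologicalSpace X] [CompactSpace X] [ConnectedSpace X] (φ : X → N),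
    Continuous φ → (∀ x, φ x ∈ V) → ∃ p, ∀ x, φ x = p

/-- There is a strictly convex function on the complement of a countable closed set. -/
def ConvexOffCountable (h : RMetric 𝓘(ℝ, E) N) : Prop :=
  ∃ (K : Set N) (f : N → ℝ), IsClosed K ∧ K.Countable ∧ StrictlyConvexOn h Kᶜ f

end Defs

/-- The sphere of dimension `n`. -/
abbrev Sph (n : ℕ) : Type := Metric.sphere (0 : EuclideanSpace ℝ (Fin (n + 1))) 1

/-- The round metric of the sphere. -/
noncomputable def roundMetric (n : ℕ) : RMetric (𝓡 n) (Sph n) :=
  haveI : Fact (Module.finrank ℝ (EuclideanSpace ℝ (Fin (n + 1))) = n + 1) := ⟨by simp⟩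
  Pool.Agent.H839R2.Geo.embMetric
    (fun x : Metric.sphere (0 : EuclideanSpace ℝ (Fin (n + 1))) 1 =>
      (x : EuclideanSpace ℝ (Fin (n + 1))))
    contMDiff_coe_sphere (fun p => mfderiv_coe_sphere_injective p)
    (fun _ => innerSL ℝ) (fun _ => contDiffAt_const)
    (fun _ v w => real_inner_comm w v) (fun _ v hv => real_inner_self_pos.2 hv)

theorem result :
    -- (1) a set with property (ii) for all metrics in every manifold
    (∀ (E : Type) [NormedAddCommGroup E] [InnerProductSpace ℝ E] [FiniteDimensional ℝ E]
      (N : Type) [TopologicalSpace N] [T2Space N] [SigmaCompactSpace N]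
      [ChartedSpace E N] [IsManifold 𝓘(ℝ, E) ∞ N],
      ∃ V : Set N, NoCurves V ∧ ∀ h : RMetric 𝓘(ℝ, E) N, PropertyTwo h V ∧
        (PropOne h V → ConvexOffCountable h)) ∧
    -- (2), (3) closed manifolds of dimension at least two
    (∀ (E : Type) [NormedAddCommGroup E] [InnerProductSpace ℝ E] [FiniteDimensional ℝ E]
      (N : Type) [TopologicalSpace N] [T2Space N] [CompactSpace N] [Nonempty N]
      [ChartedSpace E N] [IsManifold 𝓘(ℝ, E) ∞ N], 2 ≤ Module.finrank ℝ E →
      (∀ h : RMetric 𝓘(ℝ, E) N, ¬ ConvexOffCountable h) ∧
      ∃ V : Set N, ∀ h : RMetric 𝓘(ℝ, E) N, PropertyTwo h V ∧ ¬ PropOne h V) ∧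
    -- (4) there are such manifolds in every dimension at least two
    ∀ n : ℕ, 2 ≤ n → ∃ (E : Type) (_ : NormedAddCommGroup E) (_ : InnerProductSpace ℝ E)
      (N : Type) (_ : TopologicalSpace N) (_ : ChartedSpace E N) (_ : IsManifold 𝓘(ℝ, E) ∞ N)
      (h : RMetric 𝓘(ℝ, E) N), Module.finrank ℝ E = n ∧ T2Space N ∧ CompactSpace N ∧
      ConnectedSpace N ∧ ∃ V : Set N, PropertyTwo h V ∧ ¬ PropOne h V := by
  have key1 : ∀ (E : Type) [NormedAddCommGroup E] [InnerProductSpace ℝ E] [FiniteDimensional ℝ E]
      (N : Type) [TopologicalSpace N] [T2Space N] [SigmaCompactSpace N]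
      [ChartedSpace E N] [IsManifold 𝓘(ℝ, E) ∞ N],
      ∃ V : Set N, NoCurves V ∧ (∀ h : RMetric 𝓘(ℝ, E) N, PropertyTwo h V) ∧
        ∀ U : Set N, IsOpen U → V ⊆ U → Uᶜ.Countable := by
    intro E _ _ _ N _ _ _ _ _
    have hsc : SecondCountableTopology N := ChartedSpace.secondCountable_of_sigmaCompact E N
    obtain ⟨V, hV⟩ := exists_bernstein N
    have hconst : NoCurves V := by
      intro X _ _ _ φ hφ hφV
      refine const_of_connected ?_ hφ hφV
      intro C hC hCV
      by_contra hCc
      obtain ⟨-, y, hy, hyV⟩ := hV C hC hCc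
      exact hyV (hCV hy)
    refine ⟨V, hconst, ?_, ?_⟩
    · intro h m M _ _ _ _ _ _ g φ hφ hφV
      exact hconst M φ hφ.1.continuous hφV
    · intro U hU hVU
      by_contra hCc
      obtain ⟨⟨y, hy, hyV⟩, -⟩ := hV Uᶜ hU.isClosed_compl hCc
      exact hy (hVU hyV)
  have key3 : ∀ (E : Type) [NormedAddCommGroup E] [InnerProductSpace ℝ E] [FiniteDimensional ℝ E]
      (N : Type) [TopologicalSpace N] [T2Space N] [CompactSpace N] [Nonempty N]
      [ChartedSpace E N] [IsManifold 𝓘(ℝ, E) ∞ N], 2 ≤ Module.finrank ℝ E →
      ∃ V : Set N, ∀ h : RMetric 𝓘(ℝ, E) N, PropertyTwo h V ∧ ¬ PropOne h V := by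
    intro E _ _ _ N _ _ _ _ _ _ hn
    obtain ⟨V, -, h2, h3⟩ := key1 E N
    refine ⟨V, fun h => ⟨h2 h, ?_⟩⟩
    rintro ⟨U, f, hU, hVU, hf⟩
    exact not_strictlyConvexOn hn h hU.isClosed_compl (h3 U hU hVU) (f := f)
      (by rwa [compl_compl])
  refine ⟨?_, ?_, ?_⟩
  · intro E _ _ _ N _ _ _ _ _
    obtain ⟨V, h1, h2, h3⟩ := key1 E N
    refine ⟨V, h1, fun h => ⟨h2 h, ?_⟩⟩
    rintro ⟨U, f, hU, hVU, hf⟩
    exact ⟨Uᶜ, f, hU.isClosed_compl, h3 U hU hVU, by rwa [compl_compl]⟩
  · intro E _ _ _ N _ _ _ _ _ _ hn
    refine ⟨?_, key3 E N hn⟩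
    rintro h ⟨K, f, hK, hKc, hf⟩
    exact not_strictlyConvexOn hn h hK hKc hf
  · intro n hn
    have : Fact (Module.finrank ℝ (EuclideanSpace ℝ (Fin (n + 1))) = n + 1) := ⟨by simp⟩
    have : Nonempty (Sph n) := (NormedSpace.sphere_nonempty.2 zero_le_one).to_subtype
    obtain ⟨V, hV⟩ := key3 (EuclideanSpace ℝ (Fin n)) (Sph n) (by simpa using hn)
    have hconn : ConnectedSpace (Sph n) := by
      apply isConnected_iff_connectedSpace.1
      apply isConnected_sphere _ _ zero_le_one
      rw [← Module.finrank_eq_rank, finrank_euclideanSpace_fin]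
      exact_mod_cast (by omega : 1 < n + 1)
    exact ⟨EuclideanSpace ℝ (Fin n), inferInstance, inferInstance, Sph n, inferInstance,
      inferInstance, inferInstance, roundMetric n, by simp, inferInstance, inferInstance, hconn,
      V, hV _⟩

end Pool.Agent.Results.MP_267b52_gt.EveryClosedManifold
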